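import Mathlib
import Pool.Agent.Helper15.UH.Goals

/-!
Packet SYM4 for `MP_ba83fc_ag`.
-/

namespace UnrCoh.H71

open UnrCoh

theorem symb_eq_of {L : Type} [Field L] {b c d e b' c' d' e' : Lˣ}
    (h : cup4 (kum b) (kum c) (kum d) (kum e) ∈ cocycles (Gal L) 2 4)
    (h' : cup4 (kum b') (kum c') (kum d') (kum e') ∈ cocycles (Gal L) 2 4)
    (hd : cup4 (kum b) (kum c) (kum d) (kum e) - cup4 (kum b') (kum c') (kum d') (kum e') ∈
      coboundaries (Gal L) 2 4) : symb b c d e = symb b' c' d' e' := by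
  rw [symb, dif_pos h, symb, dif_pos h']
  rw [QuotientAddGroup.eq_iff_sub_mem]
  rw [AddSubgroup.mem_addSubgroupOf]
  exact hd

theorem sym4 (hk : S_KUM) (hc : S_CUP) : S_SYM4 := by
  intro L _ _
  obtain ⟨hk1, hk2, hk3, hk4⟩ := hk L
  have key : ∀ b c d e : Lˣ,
      cup4 (kum b) (kum c) (kum d) (kum e) ∈ cocycles (Gal L) 2 4 ∧
      cup4 (kum b) (kum c) (kum d) (kum e) - cup4 (kum c) (kum b) (kum d) (kum e) ∈
        coboundaries (Gal L) 2 4 ∧
      cup4 (kum b) (kum c) (kum d) (kum e) - cup4 (kum b) (kum d) (kum c) (kum e) ∈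
        coboundaries (Gal L) 2 4 ∧
      cup4 (kum b) (kum c) (kum d) (kum e) - cup4 (kum b) (kum c) (kum e) (kum d) ∈
        coboundaries (Gal L) 2 4 ∧
      (∀ φ : Gal L → ZMod 2, IsLocallyConstant φ →
        (∀ g h : Gal L, kum b g * kum c h = φ g + φ h + φ (g * h)) →
        cup4 (kum b) (kum c) (kum d) (kum e) ∈ coboundaries (Gal L) 2 4) := by
    intro b c d e
    have h := hc (Gal L) (fun i : Fin 5 => kum (![b, c, d, e, e] i))
      (fun i => hk1 _) (fun i g h => hk2 _ g h)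
    exact h
  have hcoc : ∀ b c d e : Lˣ, cup4 (kum b) (kum c) (kum d) (kum e) ∈ cocycles (Gal L) 2 4 :=
    fun b c d e => (key b c d e).1
  refine ⟨hcoc, ?_⟩
  refine ⟨?_, ?_, ?_, ?_, ?_⟩
  · intro a b c d e
    rw [symb, dif_pos (hcoc _ _ _ _), symb, dif_pos (hcoc _ _ _ _), symb,
      dif_pos (hcoc _ _ _ _), ← QuotientAddGroup.mk_add]
    congr 1
    apply Subtype.ext
    funext g
    simp only [AddSubgroup.coe_add, Pi.add_apply, cup4, hk3]
    ring
  · intro a b c d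
    exact symb_eq_of (hcoc _ _ _ _) (hcoc _ _ _ _) (key a b c d).2.1
  · intro a b c d
    exact symb_eq_of (hcoc _ _ _ _) (hcoc _ _ _ _) (key a b c d).2.2.1
  · intro a b c d
    exact symb_eq_of (hcoc _ _ _ _) (hcoc _ _ _ _) (key a b c d).2.2.2.1
  · intro b c p q h d e
    obtain ⟨φ, hφ, hφ'⟩ := hk4 b c p q h
    have h0 := (key b c d e).2.2.2.2 φ hφ hφ'
    rw [symb, dif_pos (hcoc _ _ _ _)]
    rw [QuotientAddGroup.eq_zero_iff, AddSubgroup.mem_addSubgroupOf]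
    exact h0

end UnrCoh.H71
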